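import Pool.Agent.H82.EUC.Stmts5

/-! Board `euc`, row GDI: no ties. -/

set_option autoImplicit false

namespace Pool.EUC

theorem gdi_posW {V E : Type} (d : Dat V E) (hd : IsDat d) : Function.Injective d.posW := by
  rintro ⟨b, i⟩ ⟨c, j⟩ h
  rcases b with v | e <;> rcases c with w | e' <;> cases i <;> cases j <;>
    simp only [Dat.posW] at h
  · rcases eq_or_ne v w with rfl | hvw
    · rfl
    · have := hd.Xs v w hvw; omega
  · rcases eq_or_ne v w with rfl | hvw
    · omega
    · have := hd.Xs v w hvw; omega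
  · rcases eq_or_ne v w with rfl | hvw
    · omega
    · have := hd.Xs v w hvw; omega
  · rcases eq_or_ne v w with rfl | hvw
    · rfl
    · have := hd.Xs v w hvw; omega
  · have h1 := hd.XL4 e'; have h2 := hd.XLR e'; have h3 := hd.c2 v e'; omega
  · have h1 := hd.XL4 e'; have h2 := hd.XLR e'; have h3 := hd.c2 v e'; omega
  · have h1 := hd.XL4 e'; have h2 := hd.XLR e'; have h3 := hd.c2 v e'; omega
  · have h1 := hd.XL4 e'; have h2 := hd.XLR e'; have h3 := hd.c2 v e'; omega
  · have h1 := hd.XL4 e; have h2 := hd.XLR e; have h3 := hd.c2 w e; omega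
  · have h1 := hd.XL4 e; have h2 := hd.XLR e; have h3 := hd.c2 w e; omega
  · have h1 := hd.XL4 e; have h2 := hd.XLR e; have h3 := hd.c2 w e; omega
  · have h1 := hd.XL4 e; have h2 := hd.XLR e; have h3 := hd.c2 w e; omega
  · rcases eq_or_ne e e' with rfl | hvw
    · rfl
    · have := hd.Rs e e' hvw
      have h1 := hd.XL4 e; have h2 := hd.XLR e; have h3 := hd.XL4 e'; have h4 := hd.XLR e'
      omega
  · rcases eq_or_ne e e' with rfl | hvw
    · have h1 := hd.XL4 e; have h2 := hd.XLR e; omega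
    · have := hd.Rs e e' hvw
      have h1 := hd.XL4 e; have h2 := hd.XLR e; have h3 := hd.XL4 e'; have h4 := hd.XLR e'
      omega
  · rcases eq_or_ne e e' with rfl | hvw
    · have h1 := hd.XL4 e; have h2 := hd.XLR e; omega
    · have := hd.Rs e e' hvw
      have h1 := hd.XL4 e; have h2 := hd.XLR e; have h3 := hd.XL4 e'; have h4 := hd.XLR e'
      omega
  · rcases eq_or_ne e e' with rfl | hvw
    · rfl
    · have := hd.Rs e e' hvw
      have h1 := hd.XL4 e; have h2 := hd.XLR e; have h3 := hd.XL4 e'; have h4 := hd.XLR e'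
      omega

theorem gdi_posM {V E : Type} (d : Dat V E) (hd : IsDat d) : Function.Injective d.posM := by
  rintro ⟨b, i⟩ ⟨c, j⟩ h
  rcases b with v | e <;> rcases c with w | e' <;> cases i <;> cases j <;>
    simp only [Dat.posM] at h
  · rcases eq_or_ne v w with rfl | hvw
    · rfl
    · have := hd.Hs v w hvw
      have h1 := hd.L4 v; have h2 := hd.LH v; have h3 := hd.L4 w; have h4 := hd.LH w
      omega
  · rcases eq_or_ne v w with rfl | hvw
    · have h1 := hd.L4 v; have h2 := hd.LH v; omega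
    · have := hd.Hs v w hvw
      have h1 := hd.L4 v; have h2 := hd.LH v; have h3 := hd.L4 w; have h4 := hd.LH w
      omega
  · rcases eq_or_ne v w with rfl | hvw
    · have h1 := hd.L4 v; have h2 := hd.LH v; omega
    · have := hd.Hs v w hvw
      have h1 := hd.L4 v; have h2 := hd.LH v; have h3 := hd.L4 w; have h4 := hd.LH w
      omega
  · rcases eq_or_ne v w with rfl | hvw
    · rfl
    · have := hd.Hs v w hvw
      have h1 := hd.L4 v; have h2 := hd.LH v; have h3 := hd.L4 w; have h4 := hd.LH w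
      omega
  · have h1 := hd.L4 v; have h2 := hd.LH v; have h3 := hd.c4 v e'; omega
  · have h1 := hd.L4 v; have h2 := hd.LH v; have h3 := hd.c4 v e'; omega
  · have h1 := hd.L4 v; have h2 := hd.LH v; have h3 := hd.c4 v e'; omega
  · have h1 := hd.L4 v; have h2 := hd.LH v; have h3 := hd.c4 v e'; omega
  · have h1 := hd.L4 w; have h2 := hd.LH w; have h3 := hd.c4 w e; omega
  · have h1 := hd.L4 w; have h2 := hd.LH w; have h3 := hd.c4 w e; omega
  · have h1 := hd.L4 w; have h2 := hd.LH w; have h3 := hd.c4 w e; omega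
  · have h1 := hd.L4 w; have h2 := hd.LH w; have h3 := hd.c4 w e; omega
  · rcases eq_or_ne e e' with rfl | hvw
    · rfl
    · have := hd.Ys e e' hvw; omega
  · rcases eq_or_ne e e' with rfl | hvw
    · omega
    · have := hd.Ys e e' hvw; omega
  · rcases eq_or_ne e e' with rfl | hvw
    · omega
    · have := hd.Ys e e' hvw; omega
  · rcases eq_or_ne e e' with rfl | hvw
    · rfl
    · have := hd.Ys e e' hvw; omega

theorem gdi_aux {a b c : ℤ} (hb : (4 : ℤ) ∣ b) (hc : (4 : ℤ) ∣ c) (ha : a % 2 = 1)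
    (h : |(a : ℝ) - (b : ℝ)| = |(a : ℝ) - (c : ℝ)|) : b = c := by
  have h' : |a - b| = |a - c| := by
    have : ((|a - b| : ℤ) : ℝ) = ((|a - c| : ℤ) : ℝ) := by push_cast; exact h
    exact_mod_cast this
  rcases abs_eq_abs.mp h' with h1 | h1 <;> omega

theorem gdi_dW4 {V E : Type} (d : Dat V E) (z : (V ⊕ E) × Bool) : (4 : ℤ) ∣ d.posW z := by
  obtain ⟨b, i⟩ := z
  rcases b with v | e <;> cases i <;> simp only [Dat.posW] <;> exact Dvd.intro _ rfl

theorem gdi_dM4 {V E : Type} (d : Dat V E) (z : (V ⊕ E) × Bool) : (4 : ℤ) ∣ d.posM z := by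
  obtain ⟨b, i⟩ := z
  rcases b with v | e <;> cases i <;> simp only [Dat.posM] <;> exact Dvd.intro _ rfl

theorem gdi_oddM {V E : Type} (d : Dat V E) (z : (V ⊕ E) × Bool) : d.prefM z % 2 = 1 := by
  obtain ⟨b, i⟩ := z
  rcases b with v | e <;> cases i <;> simp only [Dat.prefM] <;> omega

theorem gdi_oddW {V E : Type} (d : Dat V E) (z : (V ⊕ E) × Bool) : d.prefW z % 2 = 1 := by
  obtain ⟨b, i⟩ := z
  rcases b with v | e <;> cases i <;> simp only [Dat.prefW] <;> omega

theorem gdi_thm : GDI_S := fun _ _ d hd =>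
  ⟨fun m _ _ h => gdi_posW d hd
      (gdi_aux (gdi_dW4 d _) (gdi_dW4 d _) (gdi_oddM d m) h),
    fun w _ _ h => gdi_posM d hd
      (gdi_aux (gdi_dM4 d _) (gdi_dM4 d _) (gdi_oddW d w) h)⟩

end Pool.EUC
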