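import Pool.Agent.H82.EUC.Stmts3

/-!
Row K33 of the board `euc`: the parity argument for `K_{3,3}`.
-/

set_option autoImplicit false

namespace Pool.EUC

private theorem k33_st (x y : ℝ) (h : x ≠ y) : st x y + st y x = 1 := by
  unfold st
  rcases lt_or_gt_of_ne h with h1 | h1
  · simp [h1, h1.le, h1.not_gt, h1.not_ge]
  · simp [h1, h1.le, h1.not_gt, h1.not_ge]

theorem k33_thm : K33_S := by
  intro φA φB α β hβ h
  have h0011 := h 0 0 1 1 (by decide) (by decide)
  have h0012 := h 0 0 1 2 (by decide) (by decide)
  have h0110 := h 0 1 1 0 (by decide) (by decide)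
  have h0112 := h 0 1 1 2 (by decide) (by decide)
  have h0210 := h 0 2 1 0 (by decide) (by decide)
  have h0211 := h 0 2 1 1 (by decide) (by decide)
  have h0021 := h 0 0 2 1 (by decide) (by decide)
  have h0022 := h 0 0 2 2 (by decide) (by decide)
  have h0120 := h 0 1 2 0 (by decide) (by decide)
  have h0122 := h 0 1 2 2 (by decide) (by decide)
  have h0220 := h 0 2 2 0 (by decide) (by decide)
  have h0221 := h 0 2 2 1 (by decide) (by decide)
  have h1021 := h 1 0 2 1 (by decide) (by decide)
  have h1022 := h 1 0 2 2 (by decide) (by decide)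
  have h1120 := h 1 1 2 0 (by decide) (by decide)
  have h1122 := h 1 1 2 2 (by decide) (by decide)
  have h1220 := h 1 2 2 0 (by decide) (by decide)
  have h1221 := h 1 2 2 1 (by decide) (by decide)
  have s01 := k33_st (β 0) (β 1) (fun e => absurd (hβ e) (by decide))
  have s02 := k33_st (β 0) (β 2) (fun e => absurd (hβ e) (by decide))
  have s12 := k33_st (β 1) (β 2) (fun e => absurd (hβ e) (by decide))
  have h2 : (2 : ZMod 2) = 0 := by decide
  have key : (1 : ZMod 2) = 0 := by
    linear_combination (norm := (ring_nf; reduce_mod_char)) h0011 + h0012 + h0110 + h0112 + h0210 + h0211 + h0021 + h0022 + h0120 + h0122 + h0220 + h0221 + h1021 + h1022 + h1120 + h1122 + h1220 + h1221 + s01 + s02 + s12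
  exact absurd key (by decide)

end Pool.EUC
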